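import Pool.Agent.Helper49.LC.St

/-!
# Project LC, module PRI: a primitive which vanishes along the plane
-/

set_option autoImplicit false

namespace Pool.Agent.Helper67.LC

open Pool.Agent.Helper14.LK Pool.Agent.Helper49.LC
open scoped ContDiff Topology
open Filter

/-- the basic primitive -/
private noncomputable def s0 {n : ℕ} (F : WW n → WW n) (w : WW n) : WW n →L[ℝ] ℝ :=
  -((innerSL ℝ (F w).2).comp ((ContinuousLinearMap.fst ℝ (EE n) (EE n)).comp (fderiv ℝ F w))) +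
    (innerSL ℝ w.2).comp (ContinuousLinearMap.fst ℝ (EE n) (EE n))

private theorem s0_apply {n : ℕ} (F : WW n → WW n) (w b : WW n) :
    s0 F w b = -inner ℝ (F w).2 (fderiv ℝ F w b).1 + inner ℝ w.2 b.1 := by
  simp [s0]

private theorem contDiff_s0 {n : ℕ} {F : WW n → WW n} (hF : ContDiff ℝ ∞ F) :
    ContDiff ℝ ∞ (s0 F) := by
  have h1 : ContDiff ℝ ∞ (fderiv ℝ F) := hF.fderiv_right (m := ∞) (by simp)
  have h3 : ContDiff ℝ ∞ (fun w : WW n => innerSL ℝ (F w).2) :=
    (innerSL ℝ (E := EE n)).contDiff.comp (contDiff_snd.comp hF)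
  have h4 : ContDiff ℝ ∞ (fun w : WW n => innerSL ℝ w.2) :=
    (innerSL ℝ (E := EE n)).contDiff.comp contDiff_snd
  show ContDiff ℝ ∞ (fun w : WW n => s0 F w)
  unfold s0
  exact (h3.clm_comp (contDiff_const.clm_comp h1)).neg.add (h4.clm_comp contDiff_const)

private theorem fder2 {E G : Type} [NormedAddCommGroup E] [NormedSpace ℝ E]
    [NormedAddCommGroup G] [NormedSpace ℝ G]
    {g : E → G} (hg : ContDiff ℝ ∞ g) (w b : E) :
    HasFDerivAt (fun w => fderiv ℝ g w b) ((fderiv ℝ (fderiv ℝ g) w).flip b) w := by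
  have h1 : HasFDerivAt (fderiv ℝ g) (fderiv ℝ (fderiv ℝ g) w) w :=
    (((hg.fderiv_right (m := ∞) (by simp)).differentiable (by simp)) w).hasFDerivAt
  have h2 := h1.clm_apply (hasFDerivAt_const b w)
  refine h2.congr_fderiv ?_
  ext a
  simp

private theorem symm2 {E G : Type} [NormedAddCommGroup E] [NormedSpace ℝ E]
    [NormedAddCommGroup G] [NormedSpace ℝ G]
    {g : E → G} (hg : ContDiff ℝ ∞ g) (w a b : E) :
    fderiv ℝ (fderiv ℝ g) w a b = fderiv ℝ (fderiv ℝ g) w b a := by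
  have h : IsSymmSndFDerivAt ℝ g w := by
    apply hg.contDiffAt.isSymmSndFDerivAt
    simp only [minSmoothness_of_isRCLikeNormedField]
    exact WithTop.coe_le_coe.2 le_top
  exact h.eq a b

private theorem fderiv_s0 {n : ℕ} {F : WW n → WW n} (hF : ContDiff ℝ ∞ F) (w a b : WW n) :
    fderiv ℝ (s0 F) w a b =
      -(inner ℝ (F w).2 (fderiv ℝ (fderiv ℝ F) w a b).1 +
        inner ℝ (fderiv ℝ F w a).2 (fderiv ℝ F w b).1) + inner ℝ a.2 b.1 := by
  have e1 : fderiv ℝ (s0 F) w a b = fderiv ℝ (fun w => s0 F w b) w a := by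
    have h1 : HasFDerivAt (s0 F) (fderiv ℝ (s0 F) w) w :=
      ((contDiff_s0 hF).differentiable (by simp) w).hasFDerivAt
    have h2 := h1.clm_apply (hasFDerivAt_const b w)
    rw [h2.fderiv]
    simp
  have e2 : (fun w => s0 F w b) = fun w => -inner ℝ (F w).2 (fderiv ℝ F w b).1 +
      inner ℝ w.2 b.1 := by
    funext w
    exact s0_apply F w b
  have d1 : HasFDerivAt (fun w => (F w).2)
      ((ContinuousLinearMap.snd ℝ (EE n) (EE n)).comp (fderiv ℝ F w)) w :=
    (ContinuousLinearMap.snd ℝ (EE n) (EE n)).hasFDerivAt.comp w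
      (hF.differentiable (by simp) w).hasFDerivAt
  have d3 : HasFDerivAt (fun w => (fderiv ℝ F w b).1)
      ((ContinuousLinearMap.fst ℝ (EE n) (EE n)).comp ((fderiv ℝ (fderiv ℝ F) w).flip b)) w :=
    (ContinuousLinearMap.fst ℝ (EE n) (EE n)).hasFDerivAt.comp w (fder2 hF w b)
  have d4 : HasFDerivAt (fun w : WW n => w.2) (ContinuousLinearMap.snd ℝ (EE n) (EE n)) w :=
    (ContinuousLinearMap.snd ℝ (EE n) (EE n)).hasFDerivAt
  have d6 := (d1.inner ℝ d3).neg.add (d4.inner ℝ (hasFDerivAt_const b.1 w))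
  have d7 : fderiv ℝ (fun w => -inner ℝ (F w).2 (fderiv ℝ F w b).1 +
      inner ℝ w.2 b.1) w = _ := d6.fderiv
  rw [e1, e2, d7]
  simp

private theorem anti_s0 {n : ℕ} {F : WW n → WW n} (hF : ContDiff ℝ ∞ F) (w a b : WW n) :
    fderiv ℝ (s0 F) w a b - fderiv ℝ (s0 F) w b a =
      om (fderiv ℝ F w a) (fderiv ℝ F w b) - om a b := by
  rw [fderiv_s0 hF, fderiv_s0 hF, symm2 hF w b a]
  unfold om
  rw [real_inner_comm (fderiv ℝ F w a).1, real_inner_comm a.1]
  ring

private theorem s0_zero {n : ℕ} {F : WW n → WW n} {R : ℝ} (h : ∀ w, R < ‖w.1‖ → F w = w)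
    (w : WW n) (hw : R < ‖w.1‖) : s0 F w = 0 := by
  have ho : ∀ᶠ w' : WW n in 𝓝 w, R < ‖w'.1‖ :=
    ((continuous_norm.comp continuous_fst).continuousAt).eventually (lt_mem_nhds hw)
  have e1 : fderiv ℝ F w = ContinuousLinearMap.id ℝ (WW n) := by
    have : F =ᶠ[𝓝 w] fun w' => w' := by
      filter_upwards [ho] with w' hw'
      exact h w' hw'
    rw [this.fderiv_eq]
    exact fderiv_fun_id
  refine ContinuousLinearMap.ext fun b => ?_
  rw [s0_apply, e1, h w hw]
  simp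

/-- the restriction of `s0` to the plane -/
private noncomputable def al {n : ℕ} (F : WW n → WW n) (x : EE n) : EE n →L[ℝ] ℝ :=
  (s0 F (x, 0)).comp (ContinuousLinearMap.inl ℝ (EE n) (EE n))

private theorem al_apply {n : ℕ} (F : WW n → WW n) (x u : EE n) :
    al F x u = s0 F (x, 0) (u, 0) := by
  simp [al]

private theorem contDiff_s0x {n : ℕ} {F : WW n → WW n} (hF : ContDiff ℝ ∞ F) :
    ContDiff ℝ ∞ (fun x : EE n => s0 F (x, 0)) :=
  (contDiff_s0 hF).comp (contDiff_id.prodMk contDiff_const)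

private theorem contDiff_al {n : ℕ} {F : WW n → WW n} (hF : ContDiff ℝ ∞ F) :
    ContDiff ℝ ∞ (al F) := by
  show ContDiff ℝ ∞ (fun x : EE n => al F x)
  unfold al
  exact (contDiff_s0x hF).clm_comp contDiff_const

private theorem hasFDerivAt_s0x {n : ℕ} {F : WW n → WW n} (hF : ContDiff ℝ ∞ F) (x : EE n) :
    HasFDerivAt (fun x : EE n => s0 F (x, 0))
      ((fderiv ℝ (s0 F) (x, 0)).comp (ContinuousLinearMap.inl ℝ (EE n) (EE n))) x := by
  have h1 : HasFDerivAt (s0 F) (fderiv ℝ (s0 F) (x, 0)) (x, 0) :=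
    ((contDiff_s0 hF).differentiable (by simp) _).hasFDerivAt
  have h2 : HasFDerivAt (fun x : EE n => ((x, 0) : WW n))
      (ContinuousLinearMap.inl ℝ (EE n) (EE n)) x := by
    have h := (hasFDerivAt_id (𝕜 := ℝ) x).prodMk (hasFDerivAt_const (0 : EE n) x)
    exact h
  exact HasFDerivAt.comp x h1 h2

private theorem fderiv_al {n : ℕ} {F : WW n → WW n} (hF : ContDiff ℝ ∞ F) (x a b : EE n) :
    fderiv ℝ (al F) x a b = fderiv ℝ (s0 F) (x, 0) (a, 0) (b, 0) := by
  have h := (hasFDerivAt_s0x hF x).clm_comp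
    (hasFDerivAt_const (ContinuousLinearMap.inl ℝ (EE n) (EE n)) x)
  have h' : fderiv ℝ (al F) x = _ := h.fderiv
  rw [h']
  simp

private theorem closed_al {n : ℕ} {F : WW n → WW n} (hF : ContDiff ℝ ∞ F)
    (h3 : ∀ x a b, om (fderiv ℝ F (x, 0) a) (fderiv ℝ F (x, 0) b) = om a b) (x a b : EE n) :
    fderiv ℝ (al F) x a b = fderiv ℝ (al F) x b a := by
  have h := anti_s0 hF (x, 0) (a, 0) (b, 0)
  rw [h3, sub_self] at h
  rw [fderiv_al hF, fderiv_al hF]
  linarith

/-- the correction -/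
private noncomputable def f1 {n : ℕ} (F : WW n → WW n) (g : EE n → ℝ) (w : WW n) : ℝ :=
  g w.1 + s0 F (w.1, 0) (0, w.2)

private theorem contDiff_f1 {n : ℕ} {F : WW n → WW n} (hF : ContDiff ℝ ∞ F) {g : EE n → ℝ}
    (hg : ContDiff ℝ ∞ g) : ContDiff ℝ ∞ (f1 F g) := by
  show ContDiff ℝ ∞ (fun w : WW n => f1 F g w)
  unfold f1
  exact (hg.comp contDiff_fst).add
    (((contDiff_s0x hF).comp contDiff_fst).clm_apply (contDiff_const.prodMk contDiff_snd))

private theorem fderiv_f1 {n : ℕ} {F : WW n → WW n} (hF : ContDiff ℝ ∞ F) {g : EE n → ℝ}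
    (hg : ContDiff ℝ ∞ g) (x : EE n) (b : WW n) :
    fderiv ℝ (f1 F g) (x, 0) b = fderiv ℝ g x b.1 + s0 F (x, 0) (0, b.2) := by
  have h1 : HasFDerivAt (fun w : WW n => g w.1)
      ((fderiv ℝ g x).comp (ContinuousLinearMap.fst ℝ (EE n) (EE n))) (x, 0) :=
    HasFDerivAt.comp (x, (0 : EE n)) (f := fun w : WW n => w.1)
      (hg.differentiable (by simp) x).hasFDerivAt
      (ContinuousLinearMap.fst ℝ (EE n) (EE n)).hasFDerivAt
  have h2 : HasFDerivAt (fun w : WW n => s0 F (w.1, 0))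
      (((fderiv ℝ (s0 F) (x, 0)).comp (ContinuousLinearMap.inl ℝ (EE n) (EE n))).comp
        (ContinuousLinearMap.fst ℝ (EE n) (EE n))) (x, 0) :=
    HasFDerivAt.comp (x, (0 : EE n)) (f := fun w : WW n => w.1) (hasFDerivAt_s0x hF x)
      (ContinuousLinearMap.fst ℝ (EE n) (EE n)).hasFDerivAt
  have h3 : HasFDerivAt (fun w : WW n => ((0, w.2) : WW n))
      ((ContinuousLinearMap.inr ℝ (EE n) (EE n)).comp (ContinuousLinearMap.snd ℝ (EE n) (EE n)))
      (x, 0) :=
    ((ContinuousLinearMap.inr ℝ (EE n) (EE n)).comp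
      (ContinuousLinearMap.snd ℝ (EE n) (EE n))).hasFDerivAt
  have h4 := h1.add (h2.clm_apply h3)
  have h5 : fderiv ℝ (f1 F g) (x, 0) = _ := h4.fderiv
  rw [h5]
  simp
  exact map_zero (fderiv ℝ (s0 F) (x, 0) (b.1, 0))

theorem hPRI (hPOI : StPOI) : StPRI := by
  intro n hn F R hF h2 h3
  have hfr : 2 ≤ Module.finrank ℝ (EE n) := by
    show 2 ≤ Module.finrank ℝ (EuclideanSpace ℝ (Fin n))
    rw [finrank_euclideanSpace_fin]
    exact hn
  obtain ⟨g, hg1, hg2, -⟩ := hPOI (EE n) hfr (fun _ => al F)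
    ((contDiff_al hF).comp contDiff_snd) (fun _ v a b => closed_al hF h3 v a b) (R + 1)
    (fun _ v hv => by
      refine ContinuousLinearMap.ext fun u => ?_
      rw [al_apply, s0_zero h2 (v, 0) (by show R < ‖v‖; linarith)]
      rfl)
  have hg : ContDiff ℝ ∞ (g 0) := hg1.comp (contDiff_const.prodMk contDiff_id)
  have hf := contDiff_f1 hF hg
  have hdf : ContDiff ℝ ∞ (fderiv ℝ (f1 F (g 0))) := hf.fderiv_right (m := ∞) (by simp)
  refine ⟨fun w => s0 F w - fderiv ℝ (f1 F (g 0)) w, (contDiff_s0 hF).sub hdf, ?_, ?_, ?_⟩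
  · intro w a b
    have e : fderiv ℝ (fun w => s0 F w - fderiv ℝ (f1 F (g 0)) w) w =
        fderiv ℝ (s0 F) w - fderiv ℝ (fderiv ℝ (f1 F (g 0))) w :=
      fderiv_fun_sub ((contDiff_s0 hF).differentiable (by simp) w)
        (hdf.differentiable (by simp) w)
    rw [e]
    show (fderiv ℝ (s0 F) w a b - fderiv ℝ (fderiv ℝ (f1 F (g 0))) w a b) -
      (fderiv ℝ (s0 F) w b a - fderiv ℝ (fderiv ℝ (f1 F (g 0))) w b a) = _
    rw [symm2 hf w a b, ← anti_s0 hF]
    ring
  · intro x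
    refine ContinuousLinearMap.ext fun b => ?_
    show s0 F (x, 0) b - fderiv ℝ (f1 F (g 0)) (x, 0) b = 0
    rw [fderiv_f1 hF hg, hg2, al_apply]
    have e : b = (b.1, 0) + (0, b.2) := by
      ext <;> simp
    have e2 : s0 F (x, 0) b = s0 F (x, 0) (b.1, 0) + s0 F (x, 0) (0, b.2) := by
      rw [← map_add]
      congr 1
    rw [e2]
    ring
  · intro w hw
    have hw' : R < ‖w.1‖ := by linarith
    have ho : ∀ᶠ w' : WW n in 𝓝 w, R < ‖w'.1‖ :=
      ((continuous_norm.comp continuous_fst).continuousAt).eventually (lt_mem_nhds hw')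
    have e1 : fderiv ℝ (f1 F (g 0)) w = 0 := by
      have : f1 F (g 0) =ᶠ[𝓝 w] fun w' => g 0 w'.1 := by
        filter_upwards [ho] with w' hw'
        unfold f1
        rw [s0_zero h2 (w'.1, 0) hw']
        simp
      rw [this.fderiv_eq]
      have h1 : HasFDerivAt (fun w : WW n => g 0 w.1)
          ((fderiv ℝ (g 0) w.1).comp (ContinuousLinearMap.fst ℝ (EE n) (EE n))) w :=
        HasFDerivAt.comp w (f := fun w : WW n => w.1)
          (hg.differentiable (by simp) w.1).hasFDerivAt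
          (ContinuousLinearMap.fst ℝ (EE n) (EE n)).hasFDerivAt
      rw [h1.fderiv, hg2]
      refine ContinuousLinearMap.ext fun b => ?_
      show al F w.1 b.1 = 0
      rw [al_apply, s0_zero h2 (w.1, 0) hw']
      rfl
    show s0 F w - fderiv ℝ (f1 F (g 0)) w = 0
    rw [e1, s0_zero h2 w hw', sub_zero]

end Pool.Agent.Helper67.LC
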